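import Pool.Agent.Helper37.SN.Stmts

set_option autoImplicit false

namespace Pool.Agent.Helper37.SN

open MeasureTheory Finset
open scoped ENNReal Classical

theorem adm_mono {k : ℕ} {a b : ℝ} {W : ℝ → ℝ} (hab : a ≤ b) (h : Adm k a W) : Adm k b W :=
  ⟨h.1, h.2.1, fun i hi y => (h.2.2 i hi y).trans hab⟩

theorem adm_smul {k : ℕ} {a : ℝ} {W : ℝ → ℝ} (c : ℝ) (h : Adm k a W) :
    Adm k (|c| * a) (fun y => c * W y) := by
  refine ⟨contDiff_const.mul h.1, fun y hy => by simp only [h.2.1 y hy, mul_zero], ?_⟩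
  intro i hi y
  have e : iteratedDeriv i (fun y => c * W y) y = c * iteratedDeriv i W y :=
    iteratedDeriv_const_mul_field c W
  rw [e, abs_mul]
  exact mul_le_mul_of_nonneg_left (h.2.2 i hi y) (abs_nonneg c)

theorem adm_add {k : ℕ} {a b : ℝ} {W V : ℝ → ℝ} (h : Adm k a W) (h' : Adm k b V) :
    Adm k (a + b) (fun y => W y + V y) := by
  refine ⟨h.1.add h'.1, fun y hy => by simp only [h.2.1 y hy, h'.2.1 y hy, add_zero], ?_⟩
  intro i hi y
  have hi' : ((i : ℕ) : WithTop ℕ∞) ≤ ((k : ℕ) : WithTop ℕ∞) := by exact_mod_cast hi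
  have e : iteratedDeriv i (fun y => W y + V y) y = iteratedDeriv i W y + iteratedDeriv i V y :=
    iteratedDeriv_fun_add ((h.1.of_le hi').contDiffAt) ((h'.1.of_le hi').contDiffAt)
  rw [e]
  exact (abs_add_le _ _).trans (add_le_add (h.2.2 i hi y) (h'.2.2 i hi y))

theorem adm_zero (k : ℕ) : Adm k 0 (fun _ => (0 : ℝ)) := by
  refine ⟨contDiff_const, fun y _ => rfl, ?_⟩
  intro i _ y
  have e : iteratedDeriv i (fun _ : ℝ => (0 : ℝ)) y = 0 := by
    have := iteratedDeriv_const_mul_field (x := y) (n := i) (0 : ℝ) (fun _ : ℝ => (0 : ℝ))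
    simp only [zero_mul] at this
    exact this
  rw [e, abs_zero]

theorem adm_sum {k : ℕ} (M : ℕ) (a : ℕ → ℝ) (W : ℕ → ℝ → ℝ) (h : ∀ β < M, Adm k (a β) (W β)) :
    Adm k (∑ β ∈ range M, a β) (fun y => ∑ β ∈ range M, W β y) := by
  induction M with
  | zero => simpa using adm_zero k
  | succ M ih =>
    have h1 := ih (fun β hβ => h β (Nat.lt_succ_of_lt hβ))
    have h2 := adm_add h1 (h M (Nat.lt_succ_self M))
    simp only [Finset.sum_range_succ]
    exact h2

theorem taya_bound (k : ℕ) (f : ℝ → ℝ) (hf : ContDiff ℝ k f) :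
    ∃ B : ℝ, 0 < B ∧ ∀ i ≤ k, ∀ y, |y| ≤ 2 → |iteratedDeriv i f y| ≤ B := by
  have h1 : ∀ i : ℕ, ∃ B : ℝ, i ≤ k → ∀ y ∈ Set.Icc (-2 : ℝ) 2, ‖iteratedDeriv i f y‖ ≤ B := by
    intro i
    by_cases hi : i ≤ k
    · have hc : Continuous (iteratedDeriv i f) := hf.continuous_iteratedDeriv i (by exact_mod_cast hi)
      obtain ⟨B, hB⟩ := (isCompact_Icc (a := (-2 : ℝ)) (b := 2)).exists_bound_of_continuousOn
        hc.continuousOn
      exact ⟨B, fun _ => hB⟩
    · exact ⟨0, fun h => absurd h hi⟩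
  choose B hB using h1
  refine ⟨∑ i ∈ range (k + 1), |B i| + 1, ?_, ?_⟩
  · have : 0 ≤ ∑ i ∈ range (k + 1), |B i| := Finset.sum_nonneg (fun i _ => abs_nonneg _)
    linarith
  · intro i hi y hy
    have h2 := hB i hi y (Set.mem_Icc.mpr (abs_le.mp hy))
    rw [Real.norm_eq_abs] at h2
    have h3 : |B i| ≤ ∑ i ∈ range (k + 1), |B i| :=
      Finset.single_le_sum (f := fun i => |B i|) (fun i _ => abs_nonneg _)
        (mem_range.mpr (Nat.lt_succ_of_le hi))
    have h4 := le_abs_self (B i)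
    linarith

theorem st_TAYA (h_GG : ST_GG) (h_PRD : ST_PRD) : ST_TAYA := by
  intro k M
  obtain ⟨hsm, -, -, -, hadm⟩ := h_GG
  obtain ⟨C0, hC0, hC0a⟩ := hadm (max k M)
  obtain ⟨P, hP, hPa⟩ := h_PRD k
  have hpow : ∀ β : ℕ, ∃ B : ℝ, 0 < B ∧ ∀ i ≤ k, ∀ y : ℝ, |y| ≤ 2 →
      |iteratedDeriv i (fun y : ℝ => y ^ β) y| ≤ B := fun β =>
    taya_bound k _ (contDiff_id.pow β)
  choose B hB0 hB using hpow
  have hpowA : ∀ β : ℕ, Adm k (P * B β) (fun y => y ^ β * gg y) := fun β =>
    hPa (B β) (fun y => y ^ β) (contDiff_id.pow β) (hB β)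
  set D : ℝ := ∑ β ∈ range M, P * B β with hD
  have hD0 : 0 ≤ D := Finset.sum_nonneg (fun β _ => (mul_pos hP (hB0 β)).le)
  have hDβ : ∀ β < M, P * B β ≤ D := fun β hβ =>
    Finset.single_le_sum (f := fun β => P * B β) (fun β _ => (mul_pos hP (hB0 β)).le)
      (mem_range.mpr hβ)
  have hcβ : ∀ a : ℝ, ∀ β < M, |iteratedDeriv β gg a / (β.factorial : ℝ)| ≤ C0 := by
    intro a β hβ
    have h1 := hC0a.2.2 β (by omega) a
    have h2 : (1 : ℝ) ≤ (β.factorial : ℝ) := by exact_mod_cast Nat.factorial_pos β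
    rw [abs_div, Nat.abs_cast, div_le_iff₀ (by linarith)]
    nlinarith
  refine ⟨P * C0 + D + C0 * D + C0, by positivity, ?_⟩
  intro a h hh0 hh1
  have hCD : 0 ≤ C0 * D := mul_nonneg hC0.le hD0
  have hPC : 0 ≤ P * C0 := (mul_pos hP hC0).le
  refine ⟨?_, ?_, ?_, ?_⟩
  · have hsmk : ContDiff ℝ k gg := hsm.of_le (by exact_mod_cast le_top)
    have h1 : ContDiff ℝ k (fun y => gg (a + h * y)) :=
      hsmk.comp (contDiff_const.add (contDiff_const.mul contDiff_id))
    have h2 := hPa C0 (fun y => gg (a + h * y)) h1 (by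
      intro i hi y _
      have hi' : ((i : ℕ) : WithTop ℕ∞) ≤ ((k : ℕ) : WithTop ℕ∞) := by exact_mod_cast hi
      have hshift : ContDiff ℝ i (fun z => gg (a + z)) :=
        (hsmk.of_le hi').comp (contDiff_const.add contDiff_id)
      have e1 : iteratedDeriv i (fun y => gg (a + h * y)) =
          fun x => h ^ i * iteratedDeriv i (fun z => gg (a + z)) (h * x) :=
        iteratedDeriv_comp_const_mul hshift h
      have e2 : iteratedDeriv i (fun z => gg (a + z)) = fun t => iteratedDeriv i gg (a + t) :=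
        iteratedDeriv_comp_const_add i gg a
      rw [e1, e2]
      simp only []
      rw [abs_mul]
      have h3 := hC0a.2.2 i (by omega) (a + h * y)
      have h4 : |h ^ i| ≤ 1 := by
        rw [abs_of_nonneg (by positivity)]
        exact pow_le_one₀ hh0.le hh1
      have h5 := abs_nonneg (iteratedDeriv i gg (a + h * y))
      have h6 := abs_nonneg (h ^ i)
      nlinarith)
    exact adm_mono (by linarith) h2
  · have h1 : ∀ β < M, Adm k (|iteratedDeriv β gg a / (β.factorial : ℝ) * h ^ β| * (P * B β))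
        (fun y => (iteratedDeriv β gg a / (β.factorial : ℝ) * h ^ β) * (y ^ β * gg y)) :=
      fun β _ => adm_smul _ (hpowA β)
    have h2 := adm_sum M _ _ h1
    have e : (fun y => tay M a h y * gg y) = fun y => ∑ β ∈ range M,
        (iteratedDeriv β gg a / (β.factorial : ℝ) * h ^ β) * (y ^ β * gg y) := by
      funext y
      unfold tay
      rw [Finset.sum_mul]
      apply Finset.sum_congr rfl
      intro β _
      rw [mul_pow]
      ring
    rw [e]
    refine adm_mono ?_ h2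
    have h3 : ∑ β ∈ range M, |iteratedDeriv β gg a / (β.factorial : ℝ) * h ^ β| * (P * B β) ≤
        ∑ β ∈ range M, C0 * (P * B β) := by
      apply Finset.sum_le_sum
      intro β hβ
      apply mul_le_mul_of_nonneg_right _ (mul_pos hP (hB0 β)).le
      rw [abs_mul]
      have h4 := hcβ a β (mem_range.mp hβ)
      have h5 : |h ^ β| ≤ 1 := by
        rw [abs_of_nonneg (by positivity)]
        exact pow_le_one₀ hh0.le hh1
      have h6 := abs_nonneg (iteratedDeriv β gg a / (β.factorial : ℝ))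
      have h7 := abs_nonneg (h ^ β)
      nlinarith
    rw [← Finset.mul_sum] at h3
    linarith
  · intro β hβ
    have := hcβ a β hβ
    linarith
  · intro β hβ
    exact adm_mono (by linarith [hDβ β hβ]) (hpowA β)

end Pool.Agent.Helper37.SN
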