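import Pool.Agent.Helper37.SN.Stmts

set_option autoImplicit false

namespace Pool.Agent.Helper37.SN

open MeasureTheory Finset
open scoped ENNReal Classical

/-- the factors of the integrand -/
noncomputable def tenG {e : ℕ} (u v : UnitAddCircle → ℝ) (k : Fin (e + 2) → ℤ) (j : Fin (e + 2)) :
    UnitAddCircle → ℂ := fun t =>
  (fourier (-(k j)) t : ℂ) * (if j = 0 then ((u t : ℝ) : ℂ) else if j = 1 then ((v t : ℝ) : ℂ) else 1)

theorem ten_ne {e : ℕ} : (1 : Fin (e + 2)) ≠ 0 := by
  intro h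
  have := congrArg Fin.val h
  simp at this

theorem ten_split {e : ℕ} (f : Fin (e + 2) → ℂ) :
    ∏ j, f j = f 0 * (f 1 * ∏ j : Fin e, f j.succ.succ) := by
  rw [Fin.prod_univ_succ, Fin.prod_univ_succ]
  rfl

theorem ten_mc {e : ℕ} (u v : UnitAddCircle → ℝ) (k : Fin (e + 2) → ℤ) :
    mc (ten u v : TT (e + 2) → ℝ) k =
      fc1 u (k 0) * (fc1 v (k 1) * ∏ j : Fin e, ∫ t, (fourier (-(k j.succ.succ)) t : ℂ) ∂haar1) := by
  have h1 : ∀ x : TT (e + 2), (∏ j, (fourier (-(k j)) (x j) : ℂ)) * ((ten u v x : ℝ) : ℂ) =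
      ∏ j, tenG u v k j (x j) := by
    intro x
    unfold tenG
    rw [Finset.prod_mul_distrib]
    congr 1
    rw [ten_split]
    have h2 : ∀ j : Fin e, (if (j.succ.succ : Fin (e + 2)) = 0 then ((u (x j.succ.succ) : ℝ) : ℂ) else
        if (j.succ.succ : Fin (e + 2)) = 1 then ((v (x j.succ.succ) : ℝ) : ℂ) else 1) = 1 := by
      intro j
      rw [if_neg (Fin.succ_ne_zero _), if_neg]
      intro h
      have := congrArg Fin.val h
      simp at this
    rw [Finset.prod_congr rfl (fun j _ => h2 j), Finset.prod_const_one, if_pos rfl, if_neg ten_ne,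
      if_pos rfl, mul_one]
    unfold ten
    push_cast
    rfl
  have hsf : SigmaFinite haar1 := by
    unfold haar1
    infer_instance
  have hA : ∫ t, tenG u v k 0 t ∂haar1 = fc1 u (k 0) := by
    unfold tenG fc1
    simp only [if_true]
  have hB : ∫ t, tenG u v k 1 t ∂haar1 = fc1 v (k 1) := by
    unfold tenG fc1
    simp only [if_neg (ten_ne (e := e)), if_true]
  have hC : ∀ j : Fin e, ∫ t, tenG u v k j.succ.succ t ∂haar1 =
      ∫ t, (fourier (-(k j.succ.succ)) t : ℂ) ∂haar1 := by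
    intro j
    unfold tenG
    have h3 : (j.succ.succ : Fin (e + 2)) ≠ 0 := Fin.succ_ne_zero _
    have h4 : (j.succ.succ : Fin (e + 2)) ≠ 1 := by
      intro h
      have := congrArg Fin.val h
      simp at this
    simp only [if_neg h3, if_neg h4, mul_one]
  unfold mc haar
  rw [integral_congr_ae (Filter.Eventually.of_forall h1), integral_fintype_prod_eq_prod, ten_split,
    hA, hB, Finset.prod_congr rfl (fun j _ => hC j)]

theorem ten_mult (r : ℝ) (n : ℤ) :
    mult r n * ∫ t, (fourier (-n) t : ℂ) ∂haar1 = ∫ t, (fourier (-n) t : ℂ) ∂haar1 := by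
  by_cases hn : n = 0
  · unfold mult
    rw [if_pos hn, one_mul]
  · have h0 : ∫ t, (fourier (-n) t : ℂ) ∂haar1 = 0 := by
      unfold haar1
      exact integral_eq_zero_of_add_right_eq_neg (μ := AddCircle.haarAddCircle)
        (fourier_add_half_inv_index (neg_ne_zero.mpr hn) (by norm_num))
    rw [h0, mul_zero]

theorem st_TEN : ST_TEN := by
  intro e r u v φ ψ _ _ _ _ hu hv k
  rw [ten_mc, ten_mc, ten_split, hu, hv]
  have h : ∏ j : Fin e, ∫ t, (fourier (-(k j.succ.succ)) t : ℂ) ∂haar1 =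
      (∏ j : Fin e, mult r (k j.succ.succ)) *
        ∏ j : Fin e, ∫ t, (fourier (-(k j.succ.succ)) t : ℂ) ∂haar1 := by
    rw [← Finset.prod_mul_distrib]
    apply Finset.prod_congr rfl
    intro j _
    rw [ten_mult]
  conv_lhs => rw [h]
  ring

end Pool.Agent.Helper37.SN
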